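import Pool.Agent.Helper73.LL.Goals

/-! Packet LL-NC for `MP_75608d_al`. -/

namespace Pool.Agent.Helper71.LLNC

open Filter Topology Pool.Agent.Helper73.LL

theorem ev_num : ∀ᶠ n : ℕ in atTop, (10 : ℝ) ^ 8 ≤ Real.log n ∧
    (100 * Real.log (Real.log n)) ^ 2 ≤ Real.exp (Real.log n / 100) := by
  have h1 : Tendsto (fun n : ℕ => Real.log (n : ℝ)) atTop atTop :=
    Real.tendsto_log_atTop.comp tendsto_natCast_atTop_atTop
  have h2 : ∀ᶠ L : ℝ in atTop, (100 * Real.log L) ^ 2 ≤ Real.exp (L / 100) := by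
    -- log L ≤ L and exp dominates
    have h3 : Tendsto (fun y : ℝ => Real.exp y / y ^ 2) atTop atTop :=
      Real.tendsto_exp_div_pow_atTop 2
    have h4 : ∀ᶠ y : ℝ in atTop, (10 : ℝ) ^ 8 ≤ Real.exp y / y ^ 2 :=
      h3.eventually_ge_atTop _
    have h5 : Tendsto (fun L : ℝ => L / 100) atTop atTop :=
      tendsto_id.atTop_div_const (by norm_num)
    filter_upwards [h5.eventually h4, eventually_ge_atTop (1 : ℝ)] with L hL hL1
    have hLpos : (0 : ℝ) < L / 100 := by positivity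
    have h6 : (10 : ℝ) ^ 8 * (L / 100) ^ 2 ≤ Real.exp (L / 100) := by
      rwa [le_div_iff₀ (by positivity)] at hL
    have h7 : Real.log L ≤ L := (Real.log_le_sub_one_of_pos (by linarith)).trans (by linarith)
    have h8 : 0 ≤ Real.log L := Real.log_nonneg hL1
    calc (100 * Real.log L) ^ 2 = 10000 * (Real.log L) ^ 2 := by ring
      _ ≤ 10000 * L ^ 2 := by gcongr
      _ = (10 : ℝ) ^ 8 * (L / 100) ^ 2 := by ring
      _ ≤ _ := h6
  exact (h1.eventually_ge_atTop _).and (h1.eventually h2)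

theorem floor_two {y : ℝ} (hy : 2 ≤ y) : y ≤ 2 * (⌊y⌋₊ : ℝ) := by
  have := Nat.lt_floor_add_one y
  linarith

theorem ndiv {r p : ℕ} (hp : 0 < p) (hpr : p < r) :
    2 ≤ (r + p - 1) / p ∧ r ≤ (r + p - 1) / p * p ∧ (r + p - 1) / p * p ≤ 2 * r := by
  refine ⟨?_, ?_, ?_⟩
  · rw [Nat.le_div_iff_mul_le hp]; omega
  · have h := Nat.lt_div_mul_add hp (a := r + p - 1)
    omega
  · have h := Nat.div_mul_le_self (r + p - 1) p
    omega

theorem nc : S_NC := by
  intro e he he1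
  filter_upwards [ev_num, eventually_ge_atTop 1] with n hn hn1
  obtain ⟨hL, hLL⟩ := hn
  intro ell θ x r hell hell2 hθ hθ1 hθ2 hx hx1 hpr hr
  set L : ℝ := Real.log n with hLdef
  have hnpos : (0 : ℝ) < n := by exact_mod_cast hn1
  have hexpL : Real.exp L = n := by rw [hLdef, Real.exp_log hnpos]
  have hLpos : 0 < L := by linarith [show (0 : ℝ) < 10 ^ 8 by norm_num]
  have hθpos : 0 < θ := by
    by_contra h
    push Not at h
    nlinarith
  -- exponentials
  have hbig : ∀ y : ℝ, 10 ≤ y → (8192 : ℝ) ≤ Real.exp y := by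
    intro y hy
    have h1 : (2.7 : ℝ) ≤ Real.exp 1 := by linarith [Real.exp_one_gt_d9]
    have h2 : Real.exp 10 = Real.exp 1 ^ 10 := by rw [← Real.exp_nat_mul]; norm_num
    calc (8192 : ℝ) ≤ 2.7 ^ 10 := by norm_num
      _ ≤ Real.exp 1 ^ 10 := by gcongr
      _ = Real.exp 10 := h2.symm
      _ ≤ _ := Real.exp_le_exp.mpr hy
  have hLn : (10 : ℝ) ^ 8 ≤ L := hL
  have hLell : 10 ≤ L - ell := by
    have : ell ≤ L / 4000 := by linarith
    linarith [show (10 : ℝ) ^ 8 = 100000000 by norm_num]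
  set p : ℕ := ⌊Real.exp (L - ell)⌋₊ with hpdef
  have hE1 := hbig _ hLell
  have hp2 : Real.exp (L - ell) ≤ 2 * (p : ℝ) := floor_two (by linarith)
  have hp : (p : ℝ) ≤ Real.exp (L - ell) := Nat.floor_le (Real.exp_pos _).le
  have hppos : 0 < p := by
    have : (0 : ℝ) < p := by linarith
    exact_mod_cast this
  have hr' : (r : ℝ) ≤ Real.exp (L - 3 / 4 * ell) :=
    (Nat.le_floor_iff (Real.exp_pos _).le).mp hr
  obtain ⟨hm2, hm3, hm4⟩ := ndiv hppos hpr
  set m : ℕ := (r + p - 1) / p with hmdef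
  have hNpos : (0 : ℝ) < ((2 * m : ℕ) : ℝ) := by
    have : 0 < 2 * m := by omega
    exact_mod_cast this
  have heps : 0 < -Real.log (1 - e / 2) := by
    have := Real.log_neg (x := 1 - e / 2) (by linarith) (by linarith)
    linarith
  set eps : ℝ := -Real.log (1 - e / 2) with hepsdef
  have h1x : 0 ≤ 1 - x := by linarith
  have hqn : 0 ≤ (1 - x) * ((2 * m : ℕ) : ℝ) / 6 := by positivity
  have hE2 : (8192 : ℝ) ≤ Real.exp (L - ell / 8) := by
    apply hbig
    have : ell ≤ L / 4000 := by linarith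
    linarith
  have hE3 : (8192 : ℝ) ≤ Real.exp (L - 3 / 4 * ell) := by
    apply hbig
    have : ell ≤ L / 4000 := by linarith
    linarith
  have hrpos : (0 : ℝ) ≤ r := Nat.cast_nonneg _
  have hrl : 0 ≤ r * ell / (64 * L * ((2 * m : ℕ) : ℝ)) := by positivity
  set r1 : ℕ := ⌊r * ell / (64 * L * ((2 * m : ℕ) : ℝ))⌋₊ with hr1def
  have hr1a : (r1 : ℝ) ≤ r * ell / (64 * L * ((2 * m : ℕ) : ℝ)) := Nat.floor_le hrl
  have hr1b : r * ell / (64 * L * ((2 * m : ℕ) : ℝ)) < r1 + 1 := Nat.lt_floor_add_one _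
  have hden : 0 < 64 * L * ((2 * m : ℕ) : ℝ) := by positivity
  have hll : 0 ≤ r1 * L / (2 * eps) := by positivity
  set l : ℕ := ⌈r1 * L / (2 * eps)⌉₊ with hldef
  have hla : r1 * L / (2 * eps) ≤ (l : ℝ) := Nat.le_ceil _
  have hlb : (l : ℝ) < r1 * L / (2 * eps) + 1 := Nat.ceil_lt_add_one hll
  set F1 : ℕ := ⌊Real.exp (L - ell / 8)⌋₊ with hF1def
  have hF1' : Real.exp (L - ell / 8) ≤ 2 * (F1 : ℝ) := floor_two (by linarith)
  set F2 : ℕ := ⌈Real.exp (L - 3 / 4 * ell)⌉₊ with hF2def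
  have hF2b : (F2 : ℝ) < Real.exp (L - 3 / 4 * ell) + 1 := Nat.ceil_lt_add_one (Real.exp_pos _).le
  have hmp : (m : ℝ) * p ≤ 2 * r := by exact_mod_cast hm4
  have hN8 : ((2 * m : ℕ) : ℝ) ≤ 8 * Real.exp (ell / 4) := by
    have h1 : Real.exp (L - 3 / 4 * ell) = Real.exp (L - ell) * Real.exp (ell / 4) := by
      rw [← Real.exp_add]; congr 1; ring
    have h2 : (m : ℝ) * (Real.exp (L - ell) / 2) ≤ 2 * (Real.exp (L - ell) * Real.exp (ell / 4)) := by
      calc (m : ℝ) * (Real.exp (L - ell) / 2) ≤ m * p := by gcongr; linarith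
        _ ≤ 2 * r := hmp
        _ ≤ 2 * (Real.exp (L - ell) * Real.exp (ell / 4)) := by rw [← h1]; linarith
    have h3 : (m : ℝ) ≤ 4 * Real.exp (ell / 4) := by
      have h4 : 0 < Real.exp (L - ell) := Real.exp_pos _
      have h5 : Real.exp (L - ell) * m ≤ Real.exp (L - ell) * (4 * Real.exp (ell / 4)) := by
        nlinarith
      exact le_of_mul_le_mul_left h5 h4
    push_cast
    linarith
  have h64 : 64 * (2 * m) ^ 2 ≤ F1 := by
    have h1 : Real.exp (L - ell / 8) = Real.exp (L - 5 / 8 * ell) * Real.exp (ell / 4) ^ 2 := by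
      rw [← Real.exp_nat_mul, ← Real.exp_add]; congr 1; push_cast; ring
    have h2 : (8192 : ℝ) ≤ Real.exp (L - 5 / 8 * ell) := by
      apply hbig
      have : ell ≤ L / 4000 := by linarith
      linarith
    have h3 : (64 : ℝ) * ((2 * m : ℕ) : ℝ) ^ 2 ≤ F1 := by
      calc (64 : ℝ) * ((2 * m : ℕ) : ℝ) ^ 2 ≤ 64 * (8 * Real.exp (ell / 4)) ^ 2 := by gcongr
        _ = 8192 * Real.exp (ell / 4) ^ 2 / 2 := by ring
        _ ≤ Real.exp (L - 5 / 8 * ell) * Real.exp (ell / 4) ^ 2 / 2 := by gcongr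
        _ = Real.exp (L - ell / 8) / 2 := by rw [h1]
        _ ≤ F1 := by linarith
    exact_mod_cast h3
  have hNNpos : 0 < 64 * (2 * m) ^ 2 := by positivity
  have hf1 : F1 / (64 * (2 * m) ^ 2) * (64 * (2 * m) ^ 2) ≤ F1 := Nat.div_mul_le_self _ _
  have hf2 : F1 < F1 / (64 * (2 * m) ^ 2) * (64 * (2 * m) ^ 2) + 64 * (2 * m) ^ 2 :=
    Nat.lt_div_mul_add hNNpos
  have hf3 : 1 ≤ F1 / (64 * (2 * m) ^ 2) := by
    rw [Nat.le_div_iff_mul_le hNNpos]; omega
  set f : ℕ := F1 / (64 * (2 * m) ^ 2) with hfdef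
  refine ⟨2 * m, ⌊(1 - x) * ((2 * m : ℕ) : ℝ) / 6⌋₊, l, r1, F1, F2, f, ?_⟩
  constructor
  case hn => exact hexpL
  case hL => exact hL
  case hell => exact hell
  case hell2 => exact hell2
  case he => exact he
  case he1 => exact he1
  case hθ => exact hθ
  case hθ1 => exact hθ1
  case hθ2 =>
    have h1 : 1 ≤ (θ * (100 * Real.log L)) ^ 2 := by
      have := hθ2
      nlinarith
    calc (1 : ℝ) ≤ (θ * (100 * Real.log L)) ^ 2 := h1
      _ = θ ^ 2 * (100 * Real.log L) ^ 2 := by ring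
      _ ≤ θ ^ 2 * Real.exp (L / 100) := by gcongr
  case hx => exact hx
  case hx1 => exact hx1
  case hp => exact hp
  case hp2 => exact hp2
  case hpr => exact hpr
  case hr => exact hr'
  case hNev => exact even_two_mul m
  case hN4 => omega
  case hN1 => nlinarith
  case hN2 => nlinarith
  case hq1 => exact Nat.floor_le hqn
  case hq2 => exact (Nat.lt_floor_add_one _).le
  case hr1 =>
    rw [le_div_iff₀ hden] at hr1a
    linarith
  case hr2 =>
    rw [div_lt_iff₀ hden] at hr1b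
    linarith
  case hl1 =>
    rw [div_le_iff₀ (by positivity)] at hla
    linarith
  case hl2 =>
    have h1 : (l : ℝ) * (2 * eps) < (r1 * L / (2 * eps) + 1) * (2 * eps) :=
      mul_lt_mul_of_pos_right hlb (by positivity)
    have h2 : (r1 * L / (2 * eps) + 1) * (2 * eps) = r1 * L + 2 * eps := by
      field_simp
    linarith
  case hF1 => exact Nat.floor_le (Real.exp_pos _).le
  case hF1' => exact hF1'
  case hF2 => exact Nat.le_ceil _
  case hF2' => linarith
  case hf1 =>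
    calc 64 * f * (2 * m) ^ 2 = f * (64 * (2 * m) ^ 2) := by ring
      _ ≤ F1 := hf1
  case hf2 =>
    have h1 : 64 * (2 * m) ^ 2 ≤ f * (64 * (2 * m) ^ 2) := Nat.le_mul_of_pos_left _ hf3
    have h2 : F1 ≤ f * (64 * (2 * m) ^ 2) + f * (64 * (2 * m) ^ 2) := by omega
    calc F1 ≤ f * (64 * (2 * m) ^ 2) + f * (64 * (2 * m) ^ 2) := h2
      _ = 128 * f * (2 * m) ^ 2 := by ring

end Pool.Agent.Helper71.LLNC
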