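import Pool.Agent.Helper74.LL.GoalsH

/-!
# Project LL (MP_cc6379_al), packet UA2: type A, `m_bc = 2`, second case
-/

set_option autoImplicit false

open LaurentPolynomial Pool.Agent.Helper15.RA Pool.Agent.Helper45.AM

noncomputable section

namespace Pool.Agent.Helper71.LL.UA2

open Pool.Agent.Helper74.LL

section

variable {S W H : Type} [Group W] [Ring H] [Algebra ℤ[T;T⁻¹] H] (X : TD S W H)

theorem mul3 (x g y : W) (h : X.cs.length (x * g * y) = X.cs.length x + X.cs.length g + X.cs.length y) :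
    X.D.t x * X.D.t g * X.D.t y = X.D.t (x * g * y) := by
  have h1 := X.cs.length_mul_le x g
  have h2 := X.cs.length_mul_le (x * g) y
  have h3 : X.cs.length (x * g) = X.cs.length x + X.cs.length g := by omega
  rw [X.D.mul x g h3, X.D.mul (x * g) y (by rw [h3]; exact h)]

theorem mulr (w : W) (i : S) (h : X.cs.length (w * X.cs.simple i) = X.cs.length w + 1) :
    X.D.t w * X.D.t (X.cs.simple i) = X.D.t (w * X.cs.simple i) :=
  X.D.mul w _ (by rw [X.cs.length_simple]; exact h)

theorem mull (w : W) (i : S) (h : X.cs.length (X.cs.simple i * w) = X.cs.length w + 1) :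
    X.D.t (X.cs.simple i) * X.D.t w = X.D.t (X.cs.simple i * w) :=
  X.D.mul _ w (by rw [X.cs.length_simple, h]; omega)

theorem mulr' (w : W) (i : S) (h : X.cs.length (w * X.cs.simple i) + 1 = X.cs.length w) :
    X.D.t w * X.D.t (X.cs.simple i) =
      xi (X.L (X.cs.simple i)) • X.D.t w + X.D.t (w * X.cs.simple i) :=
  (g_h1 S W H X.M X.cs X.L X.D.toHecke1.toHecke0).2.2.2.2.1 i w h

theorem mull' (w : W) (i : S) (h : X.cs.length (X.cs.simple i * w) + 1 = X.cs.length w) :
    X.D.t (X.cs.simple i) * X.D.t w =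
      xi (X.L (X.cs.simple i)) • X.D.t w + X.D.t (X.cs.simple i * w) :=
  (g_h1 S W H X.M X.cs X.L X.D.toHecke1.toHecke0).2.2.1 i w h

theorem ge_self {m : ℕ} {g : W} {I : Set S} (hI : Sm I) (hg : g ∈ par X.cs I) (h : m ≤ X.α g) :
    X.Ge m g :=
  ⟨1, g, 1, I, hI, hg, by simp, by simp, h⟩

end

theorem t (hKD1 : KD1) (hKD2 : KD2) (hK1 : K1) (hGEO : GEO) (hHWT : HWT) (hHW0 : HW0)
    (hRA1 : RA1) (hHRL : HRL) : UA2 := by
  intro S W H _ _ _ X M n a b c x y hId hN0 hN1 hN2 hab hac hbc hxR hyL hxc hyc hn hay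
  obtain ⟨hLg, -, hL1, -, hWt⟩ := hHWT S W H X
  obtain ⟨d1, d2, d3, d4, d5, d6, d7, d8, d9, d10, d11⟩ := hKD2 S W X.M X.cs
  -- the matrix
  have hbcne : b ≠ c := by
    rintro rfl
    rw [X.M.diagonal] at hbc
    omega
  have hsym : ∀ i j, X.M i j = X.M j i := fun i j => (X.M.symmetric i j)
  have hab2 : X.M a b ≠ 2 := fun h => hac (X.mat b c a hbc (by rw [hsym]; exact h)).symm
  have hac2 : X.M a c ≠ 2 := fun h => hab (X.mat c b a (by rw [hsym]; exact hbc) (by rw [hsym]; exact h)).symm
  have hab7 : 7 ≤ X.M a b := hLg.big a b hab hab2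
  have hac7 : 7 ≤ X.M a c := hLg.big a c hac hac2
  have ma : a ∈ ({a, b} : Set S) := Or.inl rfl
  have mb : b ∈ ({a, b} : Set S) := Or.inr rfl
  have hcomm : X.cs.simple b * X.cs.simple c = X.cs.simple c * X.cs.simple b := d11 b c hbc
  have hsq : ∀ (i : S) (w : W), X.cs.simple i * (X.cs.simple i * w) = w := fun i w => by
    rw [← mul_assoc, X.cs.simple_mul_simple_self, one_mul]
  have hsq' : ∀ (i : S) (w : W), w * X.cs.simple i * X.cs.simple i = w := fun i w => by
    rw [mul_assoc, X.cs.simple_mul_simple_self, mul_one]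
  have hxa := hxR a ma
  have hxb := hxR b mb
  have hya := hyL a ma
  have hyb := hyL b mb
  obtain ⟨⟨k1, k2, k3, k4, k5⟩, k6, k7, ⟨k8, k9, k10, k11⟩, k12, k13, k14, k15, k16, k17, k18⟩ :=
    hKD1 S W X.M X.cs a b hab (X.fin a b)
  -- `y₅`
  have hyc' : X.cs.IsLeftDescent y c := by
    have h1 : X.cs.IsLeftDescent (X.cs.simple b * y) b := by
      rw [X.cs.isLeftDescent_iff, hsq]
      exact hyb.symm
    have h2 := (d2 b c hbcne (X.fin b c) (X.cs.simple b * y) h1 hyc).2.1
    rwa [hsq] at h2
  obtain ⟨y₅, hy5⟩ : ∃ y₅, y₅ = X.cs.simple c * y := ⟨_, rfl⟩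
  have hy5' : X.cs.simple c * y₅ = y := by rw [hy5, hsq]
  have hly5 : X.cs.length y₅ + 1 = X.cs.length y := by
    rw [hy5]
    exact (X.cs.isLeftDescent_iff).1 hyc'
  have hc5 : ¬ X.cs.IsLeftDescent y₅ c := by
    rw [X.cs.not_isLeftDescent_iff, hy5']
    exact hly5.symm
  have hb5 : ¬ X.cs.IsLeftDescent y₅ b := by
    intro h
    have h1 := d6 c b y₅ (by rw [hsym]; exact hbc) hc5 h
    rw [hy5', X.cs.isLeftDescent_iff] at h1
    omega
  have hlb5 : X.cs.length (X.cs.simple b * y₅) = X.cs.length y₅ + 1 := (X.cs.not_isLeftDescent_iff).1 hb5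
  have hlc5 : X.cs.length (X.cs.simple c * y₅) = X.cs.length y₅ + 1 := (X.cs.not_isLeftDescent_iff).1 hc5
  rw [← hy5] at hay
  have hbb5 : X.cs.IsLeftDescent (X.cs.simple b * y₅) b := by
    rw [X.cs.isLeftDescent_iff, hsq]
    exact hlb5.symm
  obtain ⟨⟨y₆, hy6, e6, l6⟩, e7, e8⟩ := d2 a b hab (X.fin a b) (X.cs.simple b * y₅) hay hbb5
  obtain ⟨e9, e10, -⟩ := e8 hab7
  set w := w0 X.cs a b with hw
  have hly : X.cs.length y = X.M a b + X.cs.length y₆ := by omega
  -- the element
  have hcx : X.cs.length (x * X.cs.simple a * X.cs.simple c) + 1 = X.cs.length x + 1 := by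
    rw [← hxa]
    exact (X.cs.isRightDescent_iff).1 hxc
  have hlab : X.cs.length (X.cs.simple a * X.cs.simple b) = 2 := k16
  have tab : X.D.t (X.cs.simple a * X.cs.simple b) = X.D.t (X.cs.simple a) * X.D.t (X.cs.simple b) :=
    (X.D.mul _ _ (by rw [hlab, X.cs.length_simple, X.cs.length_simple])).symm
  have tbc : X.D.t (X.cs.simple b) * X.D.t (X.cs.simple c) =
      X.D.t (X.cs.simple c) * X.D.t (X.cs.simple b) := by
    have hlbc : X.cs.length (X.cs.simple b * X.cs.simple c) = 2 :=
      (hKD1 S W X.M X.cs b c hbcne (X.fin b c)).2.2.2.2.2.2.2.2.1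
    rw [X.D.mul _ _ (by rw [hlbc, X.cs.length_simple, X.cs.length_simple]),
      X.D.mul _ _ (by rw [← hcomm, hlbc, X.cs.length_simple, X.cs.length_simple]), hcomm]
  have ty : X.D.t y = X.D.t (X.cs.simple c) * X.D.t y₅ := by
    rw [mull X y₅ c hlc5, hy5']
  have tb5 : X.D.t (X.cs.simple b) * X.D.t y₅ = X.D.t (w * y₆) := by
    rw [mull X y₅ b hlb5, e6]
  have hE : X.D.t x * X.D.t (X.cs.simple a * X.cs.simple b) * X.D.t y =
      X.D.t x * X.D.t (X.cs.simple a) * X.D.t (X.cs.simple c) * X.D.t (w * y₆) := by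
    rw [tab, ty, ← tb5]
    have : X.D.t x * (X.D.t (X.cs.simple a) * X.D.t (X.cs.simple b)) *
        (X.D.t (X.cs.simple c) * X.D.t y₅) =
        X.D.t x * X.D.t (X.cs.simple a) * (X.D.t (X.cs.simple b) * X.D.t (X.cs.simple c)) *
          X.D.t y₅ := by noncomm_ring
    rw [this, tbc]
    noncomm_ring
  have txa : X.D.t x * X.D.t (X.cs.simple a) = X.D.t (x * X.cs.simple a) := mulr X x a hxa
  -- weights
  obtain ⟨w1, w2, -, w3, w4, w5⟩ := hWt a b hab
  obtain ⟨-, -, -, -, w6, -⟩ := hWt b a hab.symm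
  rw [← k2] at w6
  rw [← hw] at w1 w3 w4 w5
  have wa := w1 hab2 a
  have wb := w1 hab2 b
  have wc := w1 hab2 c
  have la := hL1 a
  have lb := hL1 b
  rw [w2, hE]
  push_cast
  by_cases hGe : X.Ge (M + 1) w
  · -- low
    refine (hHRL S W H X M _ a b (X.D.t x * X.D.t (X.cs.simple a) * X.D.t (X.cs.simple c)) hab hId hGe).2
      y₆ hy6 ?_
    intro z hz hzw
    rw [← hw] at hzw ⊢
    by_cases hz1 : z = X.cs.simple b * w
    · -- (i)
      have h1 : z * y₆ = y₅ := by
        rw [hz1, mul_assoc, ← e6, hsq]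
      rw [h1, mul_assoc, ← ty]
      have h2 := hN1 x y a (by rw [X.cs.not_isRightDescent_iff]; exact hxa)
        (by rw [X.cs.not_isLeftDescent_iff]; exact hya) hn.le
      refine h2.mono ?_
      rw [hz1]
      omega
    · by_cases hz2 : z = X.cs.simple a * w
      · -- (ii)
        obtain ⟨u, hu⟩ : ∃ u, u = X.cs.simple b * (X.cs.simple a * (X.cs.simple b * y₅)) := ⟨_, rfl⟩
        have hzu : z * y₆ = X.cs.simple b * u := by
          rw [hu, hsq, hz2, mul_assoc, ← e6]
        have lu1 : X.cs.length (X.cs.simple a * (X.cs.simple b * y₅)) + 1 =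
            X.cs.length (X.cs.simple b * y₅) := (X.cs.isLeftDescent_iff).1 hay
        have lu2 : X.cs.length u + 1 = X.cs.length (X.cs.simple a * (X.cs.simple b * y₅)) := by
          rw [hu]
          exact (X.cs.isLeftDescent_iff).1 e7
        have hbu : X.cs.length (X.cs.simple b * u) = X.cs.length u + 1 := by
          rw [hu, hsq, ← hu]
          exact lu2.symm
        have hcu : ¬ X.cs.IsLeftDescent u c := by
          intro h
          have hk : X.cs.simple b * (X.cs.simple a * w) ∈ par X.cs {a, b} :=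
            mul_mem (Subgroup.subset_closure ⟨b, mb, rfl⟩)
              (mul_mem (Subgroup.subset_closure ⟨a, ma, rfl⟩) k1)
          have huk : u = X.cs.simple b * (X.cs.simple a * w) * y₆ := by
            rw [hu, e6]
            simp only [mul_assoc]
          rw [huk] at h
          have h3 := (hK1 S W X.M X.cs hLg).2.2.2.2.2.2.2.1 a c b y₆ _ hab hac.symm hbcne.symm hy6 hk h
          have h4 := X.cs.length_mul_le (X.cs.simple b * (X.cs.simple a * w)) y₆
          rw [← huk] at h4
          omega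
        have hlcu : X.cs.length (X.cs.simple c * u) = X.cs.length u + 1 :=
          (X.cs.not_isLeftDescent_iff).1 hcu
        have hby' : ¬ X.cs.IsLeftDescent (X.cs.simple c * u) b := by
          intro h
          have h1 : X.cs.IsLeftDescent (X.cs.simple c * u) c := by
            rw [X.cs.isLeftDescent_iff, hsq]
            exact hlcu.symm
          have h2 := (d2 c b hbcne.symm (X.fin c b) (X.cs.simple c * u) h1 h).2.1
          rw [hsq, X.cs.isLeftDescent_iff] at h2
          omega
        have hay' : ¬ X.cs.IsLeftDescent (X.cs.simple c * u) a := by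
          refine (hK1 S W X.M X.cs hLg).2.2.2.2.2.2.2.2.1 a b c u hab hac hbc ?_ ?_ hcu
          · rw [hu]; exact e9
          · rw [hu]; exact e10
        have hXL : XL X.cs {a, b} (X.cs.simple c * u) := by
          rintro i (rfl | rfl)
          · exact (X.cs.not_isLeftDescent_iff).1 hay'
          · exact (X.cs.not_isLeftDescent_iff).1 hby'
        have hfull : Full X.cs a b (X.cs.simple a * X.cs.simple b) := by
          rw [k12]
          exact ⟨mul_mem (Subgroup.subset_closure ⟨a, ma, rfl⟩)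
            (Subgroup.subset_closure ⟨b, mb, rfl⟩), hlab.ge⟩
        have h5 := hN2 a b x (X.cs.simple a * X.cs.simple b) (X.cs.simple c * u) hab hxR hfull hXL
          (by omega)
        have h6 : X.D.t x * X.D.t (X.cs.simple a) * X.D.t (X.cs.simple c) * X.D.t (z * y₆) =
            X.D.t x * X.D.t (X.cs.simple a * X.cs.simple b) * X.D.t (X.cs.simple c * u) := by
          rw [hzu, ← mull X u b hbu, ← mull X u c hlcu, tab]
          have : X.D.t x * X.D.t (X.cs.simple a) * X.D.t (X.cs.simple c) *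
              (X.D.t (X.cs.simple b) * X.D.t u) =
              X.D.t x * X.D.t (X.cs.simple a) * (X.D.t (X.cs.simple c) * X.D.t (X.cs.simple b)) *
                X.D.t u := by noncomm_ring
          rw [this, ← tbc]
          noncomm_ring
        rw [h6]
        refine h5.mono ?_
        rw [w2, hz2]
        push_cast
        omega
      · -- (iii)
        obtain ⟨z1, z2, z3, z4⟩ := k6 z hz
        have hlz : X.cs.length z + 2 ≤ X.M a b := by
          have h1 := z2 hzw
          by_contra hcon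
          have h2 : X.cs.length (z * w) = 1 := by omega
          have h3 : z * w ∈ par X.cs {a, b} := mul_mem hz k1
          rcases (k13 (z * w) h3).1 h2 with h4 | h4
          · exact hz2 (by rw [← h4, mul_assoc, k5, mul_one])
          · exact hz1 (by rw [← h4, mul_assoc, k5, mul_one])
        have hLz := (w5 z hz hzw).2.2.2.1 hlz
        have hly6 : X.cs.length (z * y₆) ≤ X.cs.length z + X.cs.length y₆ := X.cs.length_mul_le _ _
        rw [txa]
        by_cases hcz : X.cs.IsLeftDescent (z * y₆) c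
        · have hz2' : X.cs.length z ≤ 2 :=
            (hK1 S W X.M X.cs hLg).2.2.2.2.2.2.2.1 a c b y₆ z hab hac.symm hbcne.symm hy6 hz hcz
          have hLz2 := (w5 z hz hzw).2.2.2.2.1 hz2'
          have hlcz : X.cs.length (X.cs.simple c * (z * y₆)) + 1 = X.cs.length (z * y₆) :=
            (X.cs.isLeftDescent_iff).1 hcz
          rw [mul_assoc, mull' X _ c hlcz, mul_add, mul_smul_comm]
          refine TD.LP.add (TD.LP.smul_xi (hN0 (x * X.cs.simple a) (z * y₆) (by omega)) ?_)
            ((hN0 (x * X.cs.simple a) (X.cs.simple c * (z * y₆)) (by omega)).mono ?_)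
          · omega
          · omega
        · have hlcz : X.cs.length (X.cs.simple c * (z * y₆)) = X.cs.length (z * y₆) + 1 :=
            (X.cs.not_isLeftDescent_iff).1 hcz
          rw [mul_assoc, mull X _ c hlcz]
          refine (hN0 (x * X.cs.simple a) (X.cs.simple c * (z * y₆)) (by omega)).mono ?_
          omega
  · -- high
    have hα : X.α w = X.L w := ((hHW0 S W H X).2.2 a b hab).1
    have hM : X.L w ≤ M := by
      by_contra hcon
      exact hGe (ge_self X (Or.inr ⟨a, b, rfl⟩) k1 (by omega))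
    -- `X'`
    have hxaa : X.cs.IsRightDescent (x * X.cs.simple a) a := by
      rw [X.cs.isRightDescent_iff, hsq']
      exact hxa.symm
    obtain ⟨⟨x₅, hx5, f1, -⟩, -, -⟩ := d1 a c hac (X.fin a c) (x * X.cs.simple a) hxaa hxc
    have hXL5 : XL X.cs {b, c} y₅ := by
      rintro i (rfl | rfl)
      · exact hlb5
      · exact hlc5
    have hR := (hRA1 S W X.M X.cs hLg a b c x₅ y₅ hab hac hbc hx5 (by rw [← f1, hsq']; exact hxR) hXL5).1
    rw [← f1] at hR
    obtain ⟨x', hx'⟩ : ∃ x', x' = x * X.cs.simple a * X.cs.simple c * X.cs.simple a := ⟨_, rfl⟩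
    rw [← hx'] at hR
    have hx'a : x' * X.cs.simple a = x * X.cs.simple a * X.cs.simple c := by rw [hx', hsq']
    have tx' : X.D.t (x * X.cs.simple a * X.cs.simple c) = X.D.t x' * X.D.t (X.cs.simple a) := by
      rw [mulr X x' a (hR a ma), hx'a]
    -- the four reduced triples
    have hlw : X.cs.length w = X.M a b := k4
    have hlaw : X.cs.length (X.cs.simple a * w) + 1 = X.cs.length w := (X.cs.isLeftDescent_iff).1 k10
    have hfw : Full X.cs a b w := by
      rw [k12]
      exact ⟨k1, by omega⟩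
    have hfaw : Full X.cs a b (X.cs.simple a * w) := by
      rw [k12]
      exact ⟨mul_mem (Subgroup.subset_closure ⟨a, ma, rfl⟩) k1, by omega⟩
    have key : ∀ v, XR X.cs {a, b} v →
        X.LP M ((X.L (X.cs.simple a) : ℤ) + 1) (X.D.t v * X.D.t (X.cs.simple a) * X.D.t (w * y₆)) := by
      intro v hv
      have g1 := (hGEO S W X.M X.cs hLg a b v w y₆ hab hv hfw hy6).2 (by omega)
      have g2 := (hGEO S W X.M X.cs hLg a b v (X.cs.simple a * w) y₆ hab hv hfaw hy6).2 (by omega)
      have hwy : X.cs.length (w * y₆) = X.cs.length w + X.cs.length y₆ := by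
        rw [← e6, l6, hlw]
      have h1 : X.D.t v * X.D.t (X.cs.simple a) * X.D.t (w * y₆) =
          xi (X.L (X.cs.simple a)) • X.D.t (v * w * y₆) + X.D.t (v * (X.cs.simple a * w) * y₆) := by
        rw [← X.D.mul w y₆ hwy, ← mul3 X _ _ _ g1, ← mul3 X _ _ _ g2]
        have : X.D.t v * X.D.t (X.cs.simple a) * (X.D.t w * X.D.t y₆) =
            X.D.t v * (X.D.t (X.cs.simple a) * X.D.t w) * X.D.t y₆ := by noncomm_ring
        rw [this, mull' X w a hlaw, mul_add, add_mul, mul_smul_comm, smul_mul_assoc]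
      rw [h1]
      refine TD.LP.add (TD.LP.smul_xi (TD.LP.t M _) (by omega)) ((TD.LP.t M _).mono (by omega))
    have h2 : X.D.t x * X.D.t (X.cs.simple a) * X.D.t (X.cs.simple c) * X.D.t (w * y₆) =
        xi (X.L (X.cs.simple c)) • (X.D.t x * X.D.t (X.cs.simple a) * X.D.t (w * y₆)) +
          X.D.t x' * X.D.t (X.cs.simple a) * X.D.t (w * y₆) := by
      rw [txa, mulr' X (x * X.cs.simple a) c (by omega), add_mul, smul_mul_assoc, tx']
    rw [h2]
    refine TD.LP.add (TD.LP.smul_xi (key x hxR) (by omega)) ((key x' hR).mono (by omega))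

end Pool.Agent.Helper71.LL.UA2
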